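import Pool.Agent.Seym81.Link

/-!
# MP_651d35_co: all but two of the digraphs have out-degrees at most one
-/

namespace Pool.Agent.Results.MP_651d35_co.AllButTwo

open Finset Seym81

/-- Q1 holds when, for some set `Q` of labels `i` for which all out-degrees of `E i` are at most
one, every vertex has at most one out-neighbour joined to it by three or more labels outside `Q`. -/
theorem result :
    ∀ (V : Type) [Fintype V] [Nonempty V] (k : ℕ) (G : Digraph V) (E : Fin k → Set (V × V))
      (Q : Set (Fin k)),
      (∀ v : V, ¬ G.Adj v v) →
      (∀ i : Fin k, ∀ p ∈ E i, G.Adj p.1 p.2) →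
      (∀ i ∈ Q, ∀ v : V, Set.ncard {w : V | (v, w) ∈ E i} ≤ 1) →
      (∀ v : V, Set.ncard {w : V | 3 ≤ Set.ncard {i : Fin k | i ∉ Q ∧ (v, w) ∈ E i}} ≤ 1) →
      (∀ v : V, Fintype.card V ≤ ∑ i : Fin k, Set.ncard {w : V | (v, w) ∈ E i}) →
      ∃ (m : ℕ) (c : Fin m → V) (col : Fin m → Fin k),
        2 ≤ m ∧ Function.Injective c ∧ Function.Injective col ∧
        ∀ j : Fin m, (c j, c (finRotate m j)) ∈ E (col j) := by
  classical
  intro V _ _ k G E Q hloop hE hQ hP hdeg
  have hnoloop : ∀ x u, ¬ arc E Q x u u := by
    intro x u h
    rcases x with x | i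
    · have h1 : (x : ℕ) < mult E Q u u := h
      have h2 : mult E Q u u = 0 := by
        unfold mult
        rw [Set.ncard_eq_zero]
        ext i
        simp only [Set.mem_ofPred_eq, Set.mem_empty_iff_false, iff_false, not_and]
        intro _ h3
        exact hloop u (hE i (u, u) h3)
      omega
    · exact hloop u (hE i (u, u) h.2)
  have key : ¬ NoC (arc E Q) := by
    intro hno
    set p : Fin (k + 2) ⊕ Fin k := Sum.inl 0 with hp
    set q : Fin (k + 2) ⊕ Fin k := Sum.inl 1 with hq
    have hpq : p ≠ q := by
      intro h
      have h1 := Sum.inl_injective h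
      have h2 := congrArg Fin.val h1
      simp at h2
    obtain ⟨v, hv⟩ := main (A := arc E Q) hno ((univ.erase p).erase q) hpq (by simp)
      (by simp)
    apply absurd (hdeg v)
    rw [not_le]
    refine lt_of_le_of_lt ?_ hv
    rw [← sum_arc E Q v]
    have hqm : q ∈ (univ : Finset (Fin (k + 2) ⊕ Fin k)).erase p :=
      mem_erase.2 ⟨hpq.symm, mem_univ _⟩
    rw [← add_sum_erase univ _ (mem_univ p), ← add_sum_erase _ _ hqm, ← add_assoc]
    apply Nat.add_le_add
    · rw [card_filter, card_filter, ← sum_add_distrib]
      rfl
    · unfold lab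
      rw [card_filter]
      apply sum_le_sum
      intro i hi
      by_cases hex : ∃ w, arc E Q i v w
      · rw [if_pos hex]
        rw [mem_erase, mem_erase] at hi
        rcases i with x | i
        · have hx2 : 2 ≤ (x : ℕ) := by
            by_contra hlt
            rcases (by omega : (x : ℕ) = 0 ∨ (x : ℕ) = 1) with h0 | h0
            · apply hi.2.1
              rw [hp]
              congr 1
              exact Fin.ext (by simp [h0])
            · apply hi.1
              rw [hq]
              congr 1
              exact Fin.ext (by simp [h0])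
          refine le_trans (card_le_card ?_) (b := ((univ : Finset V).filter (fun w => 3 ≤ Set.ncard {i : Fin k | i ∉ Q ∧ (v, w) ∈ E i})).card) ?_
          · intro w hw
            rw [mem_filter] at hw ⊢
            refine ⟨mem_univ _, ?_⟩
            have h1 : (x : ℕ) < mult E Q v w := hw.2
            unfold mult at h1
            omega
          · have h1 := hP v
            rw [Set.ncard_eq_toFinset_card'] at h1
            refine le_trans (le_of_eq ?_) h1
            congr 1
            ext w
            rw [mem_filter, Set.mem_toFinset]
            exact ⟨fun h => h.2, fun h => ⟨mem_univ _, h⟩⟩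
        · refine le_trans ?_ (hQ i (by
            obtain ⟨w, hw⟩ := hex
            exact hw.1) v)
          rw [Set.ncard_eq_toFinset_card']
          apply card_le_card
          intro w hw
          rw [mem_filter] at hw
          rw [Set.mem_toFinset]
          exact hw.2.2
      · rw [if_neg hex, Nat.le_zero, card_eq_zero, filter_eq_empty_iff]
        intro w _ h
        exact hex ⟨w, h⟩
  obtain ⟨L, c, lb, hL, hc, hlb, harc⟩ := exists_cycle hnoloop key
  obtain ⟨col, hcol, hmem⟩ := exists_colours E Q c (fun j => c (finRotate L j)) lb hlb harc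
  exact ⟨L, c, col, hL, hc, hcol, hmem⟩

end Pool.Agent.Results.MP_651d35_co.AllButTwo
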