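import Pool.Agent.Seym65.Sparse
import Pool.Agent.Seym65.Link

/-!
# MP_651d35_co: asymptotic form for digraphs of small out-degree

For every `ε > 0` there is a constant `C` such that total out-degree at least
`(1 + ε) |V| + C Δ` at every vertex forces a rainbow directed cycle, where `Δ` bounds the number of
(distinct) out-neighbours of a vertex.
-/

namespace Pool.Agent.Results.MP_651d35_co.SparseAsymptotic

open Seym65 Finset

/-- For every `ε > 0` there is a `C` such that for all digraphs `G` and edge sets `E_1, ..., E_k`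
in which every vertex has at most `Δ` out-neighbours along arcs of `E_1 ∪ ... ∪ E_k`: if the total
out-degree of every vertex is at least `(1 + ε) |V| + C Δ` then there is a rainbow directed cycle. -/
theorem result :
    ∀ ε : ℝ, 0 < ε → ∃ C : ℝ,
      ∀ (V : Type) [Fintype V] [Nonempty V] (k Δ : ℕ) (G : Digraph V) (E : Fin k → Set (V × V)),
      (∀ v : V, ¬ G.Adj v v) →
      (∀ i : Fin k, ∀ p ∈ E i, G.Adj p.1 p.2) →
      (∀ v : V, Set.ncard {w : V | ∃ i : Fin k, (v, w) ∈ E i} ≤ Δ) →
      (∀ v : V, (1 + ε) * (Fintype.card V : ℝ) + C * (Δ : ℝ) ≤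
        ((∑ i : Fin k, Set.ncard {w : V | (v, w) ∈ E i} : ℕ) : ℝ)) →
      ∃ (m : ℕ) (c : Fin m → V) (col : Fin m → Fin k),
        2 ≤ m ∧ Function.Injective c ∧ Function.Injective col ∧
        ∀ j : Fin m, (c j, c (finRotate m j)) ∈ E (col j) := by
  intro ε hε
  obtain ⟨C, hC0, hC⟩ := sparse (ε := min ε 1) (lt_min hε one_pos) (min_le_right _ _)
  refine ⟨C, ?_⟩
  intro V _ _ k Δ G E hloop hE hΔ hdeg
  classical
  apply rainbow_of_not_noClosed E (fun i v h => hloop v (hE i (v, v) h))
  intro hno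
  have hcfg : Cfg (wt E) (univ : Finset V) Δ k := by
    refine ⟨fun u y _ => ⟨mem_univ _, mem_univ _⟩, hno.noC, ?_, wt_le E⟩
    intro u
    refine le_trans ?_ (hΔ u)
    rw [Set.ncard_eq_toFinset_card']
    apply card_le_card
    intro y hy
    have h1 := (mem_filter.1 hy).2
    unfold wt at h1
    obtain ⟨i, hi⟩ := card_pos.1 h1
    rw [Set.mem_toFinset]
    exact ⟨i, (mem_filter.1 hi).2⟩
  obtain ⟨u, _, hu⟩ := hC V Δ k univ univ_nonempty (wt E) hcfg
  have h1 := hdeg u
  rw [← sum_wt] at h1
  push_cast at h1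
  rw [card_univ] at hu
  have h2 : (1 + min ε 1) * (Fintype.card V : ℝ) ≤ (1 + ε) * (Fintype.card V : ℝ) :=
    mul_le_mul_of_nonneg_right (by linarith [min_le_left ε 1]) (Nat.cast_nonneg _)
  linarith

end Pool.Agent.Results.MP_651d35_co.SparseAsymptotic
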