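import Pool.Agent.Seym65.Main
import Pool.Agent.Seym65.Link

/-!
# MP_651d35_co: total out-degree `3 |V|` forces a rainbow directed cycle
-/

namespace Pool.Agent.Results.MP_651d35_co.ThreeTimes

open Seym65

/-- If the total out-degree of every vertex, summed over the edge sets `E_1, ..., E_k`, is at least
`3 |V|`, then there is a rainbow directed cycle. -/
theorem result :
    ∀ (V : Type) [Fintype V] [Nonempty V] (k : ℕ) (G : Digraph V) (E : Fin k → Set (V × V)),
      (∀ v : V, ¬ G.Adj v v) →
      (∀ i : Fin k, ∀ p ∈ E i, G.Adj p.1 p.2) →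
      (∀ v : V, 3 * Fintype.card V ≤ ∑ i : Fin k, Set.ncard {w : V | (v, w) ∈ E i}) →
      ∃ (m : ℕ) (c : Fin m → V) (col : Fin m → Fin k),
        2 ≤ m ∧ Function.Injective c ∧ Function.Injective col ∧
        ∀ j : Fin m, (c j, c (finRotate m j)) ∈ E (col j) := by
  intro V _ _ k G E hloop hE hdeg
  apply rainbow_of_not_noClosed E (fun i v h => hloop v (hE i (v, v) h))
  intro hno
  obtain ⟨u, _, hu⟩ := three hno (wt_le E) Finset.univ Finset.univ_nonempty
  rw [sum_wt, Finset.card_univ] at hu
  exact absurd (hdeg u) (not_le.2 hu)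

end Pool.Agent.Results.MP_651d35_co.ThreeTimes
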