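import Pool.Agent.Seym90.Main
import Pool.Agent.Seym65.Noc
import Pool.Agent.Seym65.Link

/-!
# MP_651d35_co: two out-neighbours with `|V|` labels in total

Seymour's statement with its exact bound holds if every vertex `v` has two out-neighbours `w₁ ≠ w₂` such
that the numbers of sets `E_i` containing `(v, w₁)` and `(v, w₂)` add up to at least `|V|`; in particular
if every vertex has at most two out-neighbours.
-/

namespace Pool.Agent.Results.MP_651d35_co.TwoBest

open Finset Pool.Agent.Seym90 Seym65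

lemma reach_of_walk' {V : Type} [Fintype V] {m : V → V → ℕ} {A : V → ℕ → V → Prop}
    (hA : ∀ u x w, A u x w → x < m u w) {Ω : Finset ℕ} {u y : V} (h : Walk A Ω u y) :
    Reach m univ Ω u y := by
  induction h with
  | refl Ω u => exact Reach.refl _ _
  | step hx ha _ ih => exact Reach.step hx (mem_univ _) (hA _ _ _ ha) ih

lemma wt_eq {V : Type} {k : ℕ} (E : Fin k → Set (V × V)) (u y : V) :
    wt E u y = Set.ncard {i : Fin k | (u, y) ∈ E i} := by
  classical
  unfold wt
  rw [Set.ncard_eq_toFinset_card']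
  congr 1
  ext i
  simp

theorem result :
    ∀ (V : Type) [Fintype V] [Nonempty V] (k : ℕ) (G : Digraph V) (E : Fin k → Set (V × V)),
      (∀ v : V, ¬ G.Adj v v) →
      (∀ i : Fin k, ∀ p ∈ E i, G.Adj p.1 p.2) →
      (∀ v : V, ∃ w₁ w₂ : V, w₁ ≠ w₂ ∧
        Fintype.card V ≤ Set.ncard {i : Fin k | (v, w₁) ∈ E i} + Set.ncard {i : Fin k | (v, w₂) ∈ E i}) →
      ∃ (m : ℕ) (c : Fin m → V) (col : Fin m → Fin k),
        2 ≤ m ∧ Function.Injective c ∧ Function.Injective col ∧
        ∀ j : Fin m, (c j, c (finRotate m j)) ∈ E (col j) := by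
  intro V _ _ k G E hloop hE hdeg
  classical
  apply rainbow_of_not_noClosed E (fun i v h => hloop v (hE i (v, v) h))
  intro hno
  -- the heavier of the two arcs first
  have hex : ∀ v : V, ∃ w₁ w₂ : V, w₁ ≠ w₂ ∧ wt E v w₂ ≤ wt E v w₁ ∧
      Fintype.card V ≤ wt E v w₁ + wt E v w₂ := by
    intro v
    obtain ⟨w₁, w₂, hne, h⟩ := hdeg v
    rw [← wt_eq, ← wt_eq] at h
    rcases Nat.le_total (wt E v w₂) (wt E v w₁) with h1 | h1
    · exact ⟨w₁, w₂, hne, h1, h⟩
    · exact ⟨w₂, w₁, hne.symm, h1, by omega⟩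
  choose f g hne hle hsum using hex
  have hsys : Sys (univ : Finset V) (Fintype.card V) f g (fun v => Fintype.card V - wt E v (f v)) := by
    refine ⟨card_univ, fun x _ => mem_univ _, fun x _ => mem_univ _, fun x _ => hne x, ?_⟩
    intro x _
    have h1 := hle x
    have h2 := hsum x
    show 2 * (Fintype.card V - wt E x (f x)) ≤ Fintype.card V
    omega
  obtain ⟨x, u, w, Ω, hx, -, -, harc, hwalk⟩ := Pool.Agent.Seym90.main _ _ f g _ univ_nonempty hsys
  have hA : ∀ u x w, Arc (univ : Finset V) (Fintype.card V) f g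
      (fun v => Fintype.card V - wt E v (f v)) u x w → x < wt E u w := by
    rintro u x w ⟨-, ⟨rfl, h⟩ | ⟨rfl, h⟩⟩
    · have h1 : x < Fintype.card V - (Fintype.card V - wt E u (f u)) := h
      omega
    · have h1 : x < Fintype.card V - wt E u (f u) := h
      have h2 := hsum u
      omega
  have hnoC : NoC (wt E) (univ : Finset V) := hno.noC
  refine hnoC (insert x Ω) x u w (mem_insert_self _ _) (mem_univ _) (hA _ _ _ harc) ?_
  rw [erase_insert hx]
  exact reach_of_walk' hA hwalk

end Pool.Agent.Results.MP_651d35_co.TwoBest
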